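import Pool.Agent.H31.DP.Targets
import Pool.Agent.H91.LF.Basic

/-!
# Row SS of the board dpt_modules: a scale with a small defect, the minor arcs
-/

set_option autoImplicit false

open Finset Filter Topology

namespace Pool.Agent.H6.DP

open Pool.Agent.H31.DP
open Pool.Agent.H91.LF (lz abs_lz_le)
open Pool.Agent.H24.T2 (Pset box cub)

private theorem minor_mono {K K' N M : ℕ} {θ : ℝ} (h : Minor K N θ) (hK : K' ≤ K) (hN : N ≤ M) :
    Minor K' M θ := by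
  intro q h1 h2 a
  have h3 := h q h1 (h2.trans hK) a
  have h4 : (K' : ℝ) ≤ K := by exact_mod_cast hK
  have h5 : (N : ℝ) ≤ M := by exact_mod_cast hN
  exact (h4.trans h3).trans (mul_le_mul_of_nonneg_right h5 (abs_nonneg _))

private theorem abs_FF_le {l : ℕ} (h : Fin l → ℕ) (p : ℕ) (y : ℤ) : |FF h p y| ≤ 1 := by
  unfold FF
  rw [Finset.abs_prod]
  exact Finset.prod_le_one (fun _ _ => abs_nonneg _) fun _ _ => abs_lz_le _

private theorem norm_ee (x : ℝ) : ‖ee x‖ = 1 := by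
  unfold ee
  have h : (2 * Real.pi * Complex.I * x : ℂ) = ((2 * Real.pi * x : ℝ) : ℂ) * Complex.I := by
    push_cast
    ring
  rw [h, Complex.norm_exp_ofReal_mul_I]

/-- shortening the sum -/
private theorem Sg_sub {l : ℕ} (h : Fin l → ℕ) (N N' : ℕ) (hN : N' ≤ N) (θ : ℝ) :
    ‖Sg h N θ‖ ≤ ‖Sg h N' θ‖ + ((N : ℝ) - N') := by
  have e : Sg h N θ = Sg h N' θ +
      ∑ n ∈ Finset.Ioc N' N, ((FF h 1 (n : ℤ) : ℝ) : ℂ) * ee (n * θ) := by
    unfold Sg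
    have e1 : Finset.Icc 1 N = Finset.Icc 1 N' ∪ Finset.Ioc N' N := by
      ext n
      simp only [Finset.mem_union, Finset.mem_Icc, Finset.mem_Ioc]
      omega
    rw [e1, Finset.sum_union]
    rw [Finset.disjoint_left]
    intro n h1 h2
    simp only [Finset.mem_Icc, Finset.mem_Ioc] at h1 h2
    omega
  rw [e]
  refine (norm_add_le _ _).trans (add_le_add le_rfl ?_)
  refine (norm_sum_le _ _).trans ?_
  calc ∑ n ∈ Finset.Ioc N' N, ‖((FF h 1 (n : ℤ) : ℝ) : ℂ) * ee (n * θ)‖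
      ≤ ∑ n ∈ Finset.Ioc N' N, (1 : ℝ) := by
        refine Finset.sum_le_sum fun n _ => ?_
        rw [norm_mul, norm_ee, mul_one, Complex.norm_real, Real.norm_eq_abs]
        exact abs_FF_le h 1 n
    _ = (N : ℝ) - N' := by
        rw [Finset.sum_const, Nat.card_Ioc, nsmul_eq_mul, mul_one, Nat.cast_sub hN]

private theorem DD_nonneg {l : ℕ} (h : Fin l → ℕ) (p M : ℕ) : 0 ≤ DD h p M := by
  unfold DD
  positivity

private theorem arith (k : ℕ) (c a W τ n3 Y V : ℝ) (ha : 0 < a) (hV : 0 < V)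
    (hVW : V ≤ W) (hWY : W ≤ Y * a) (hn3 : 0 ≤ n3) (hτ : 0 ≤ τ)
    (h : (c * a) ^ (k + 2) ≤ 6 ^ (k + 2) * a * W ^ k * (n3 + τ * W)) :
    c ^ (k + 2) ≤ 6 ^ (k + 2) * Y ^ (k + 1) * (n3 / V + τ) := by
  have hW : 0 < W := lt_of_lt_of_le hV hVW
  have hb : n3 / W + τ ≤ n3 / V + τ := by
    have := div_le_div_of_nonneg_left hn3 hV hVW
    linarith
  have hb0 : 0 ≤ n3 / W + τ := by positivity
  have h1 : W ^ k * (n3 + τ * W) ≤ (Y * a) ^ (k + 1) * (n3 / V + τ) := by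
    have e : n3 + τ * W = W * (n3 / W + τ) := by
      field_simp
    rw [e]
    calc W ^ k * (W * (n3 / W + τ)) = W ^ (k + 1) * (n3 / W + τ) := by ring
      _ ≤ (Y * a) ^ (k + 1) * (n3 / V + τ) :=
        mul_le_mul (pow_le_pow_left₀ hW.le hWY _) hb hb0 (by
          have : 0 ≤ Y * a := hW.le.trans hWY
          positivity)
  have h2 : c ^ (k + 2) * a ^ (k + 2) ≤ (6 ^ (k + 2) * Y ^ (k + 1) * (n3 / V + τ)) * a ^ (k + 2) := by
    calc c ^ (k + 2) * a ^ (k + 2) = (c * a) ^ (k + 2) := by ring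
      _ ≤ 6 ^ (k + 2) * a * W ^ k * (n3 + τ * W) := h
      _ = 6 ^ (k + 2) * a * (W ^ k * (n3 + τ * W)) := by ring
      _ ≤ 6 ^ (k + 2) * a * ((Y * a) ^ (k + 1) * (n3 / V + τ)) :=
        mul_le_mul_of_nonneg_left h1 (by positivity)
      _ = _ := by ring
  exact le_of_mul_le_mul_right h2 (by positivity)

/-- the large scales -/
private theorem scales (k : ℕ) (C κ b : ℝ) (hκ : 0 < κ) (hb : 0 < b) :
    ∃ m₀ : ℕ, ∀ m, m₀ ≤ m → 1 ≤ m ∧ 2 ≤ κ * 2 ^ m ∧ C * ((m : ℝ) ^ k / 2 ^ m) < b := by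
  have h1 : Tendsto (fun n : ℕ => C * ((n : ℝ) ^ k / 2 ^ n)) atTop (𝓝 (C * 0)) :=
    (tendsto_pow_const_div_const_pow_of_one_lt k (by norm_num : (1 : ℝ) < 2)).const_mul C
  rw [mul_zero] at h1
  have h2 := h1.eventually_lt_const hb
  have h3 : Tendsto (fun n : ℕ => κ * (2 : ℝ) ^ n) atTop atTop :=
    (tendsto_pow_atTop_atTop_of_one_lt (by norm_num : (1 : ℝ) < 2)).const_mul_atTop hκ
  have h4 := h3.eventually_ge_atTop 2
  obtain ⟨m₀, hm₀⟩ := Filter.eventually_atTop.1 ((h2.and h4).and (Filter.eventually_ge_atTop 1))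
  exact ⟨m₀, fun m hm => ⟨(hm₀ m hm).2, (hm₀ m hm).1.2, (hm₀ m hm).1.1⟩⟩

/-- the choice of the block -/
private theorem block (hPG : StatementPG) (κ : ℝ) (hκ : 0 < κ) (hκ1 : κ ≤ 1 / 16) (m : ℕ)
    (hm : 2 ≤ κ * 2 ^ m) :
    ∃ P L : ℕ, 0 < L ∧ 2 ^ m ≤ P ∧ P ≤ 2 ^ (m + 1) ∧ κ * 2 ^ m ≤ (L : ℝ) ∧
      (L : ℝ) ≤ 3 / 2 * (κ * 2 ^ m) ∧
      κ / 2 * ((Pset 1 m).card : ℝ) ≤
        (((Pset 1 m).filter (fun p => P < p ∧ p ≤ P + L)).card : ℝ) := by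
  set L : ℕ := ⌈κ * 2 ^ m⌉₊ with hL
  have h1 : κ * 2 ^ m ≤ (L : ℝ) := Nat.le_ceil _
  have h2 : (L : ℝ) < κ * 2 ^ m + 1 := Nat.ceil_lt_add_one (by positivity)
  have h3 : (L : ℝ) ≤ 3 / 2 * (κ * 2 ^ m) := by linarith
  have hL0 : 0 < L := by
    have : (0 : ℝ) < L := by linarith
    exact_mod_cast this
  obtain ⟨P, hP1, hP2, hP3⟩ := hPG (Pset 1 m) m L hL0 (fun p hp => by
    unfold Pset at hp
    rw [Finset.mem_filter, Finset.mem_Ioc] at hp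
    exact hp.1)
  refine ⟨P, L, hL0, hP1, hP2, h1, h3, ?_⟩
  set a : ℝ := ((Pset 1 m).card : ℝ) with ha
  set b : ℝ := (((Pset 1 m).filter (fun p => P < p ∧ p ≤ P + L)).card : ℝ) with hb
  have ha0 : 0 ≤ a := Nat.cast_nonneg _
  have hb0 : 0 ≤ b := Nat.cast_nonneg _
  have hT : (0 : ℝ) < 2 ^ m := by positivity
  have h4 : (2 : ℝ) ^ m + L ≤ 2 * 2 ^ m := by
    have : 3 / 2 * (κ * 2 ^ m) ≤ 1 * 2 ^ m := by
      rw [← mul_assoc]
      exact mul_le_mul_of_nonneg_right (by linarith) hT.le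
    linarith
  have h5 : a * (κ * 2 ^ m) ≤ (2 * 2 ^ m) * b :=
    calc a * (κ * 2 ^ m) ≤ a * L := mul_le_mul_of_nonneg_left h1 ha0
      _ ≤ (2 ^ m + L) * b := hP3
      _ ≤ (2 * 2 ^ m) * b := mul_le_mul_of_nonneg_right h4 hb0
  have h6 : (κ / 2 * a) * (2 * 2 ^ m) ≤ b * (2 * 2 ^ m) := by nlinarith [h5]
  exact le_of_mul_le_mul_right h6 (by positivity)

/-- most primes of the block are good -/
private theorem good {l : ℕ} (h : Fin l → ℕ) (A B : Finset ℕ) (M : ℕ) (hM : 0 < M) (κ δ : ℝ)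
    (hδ : 0 < δ) (hBA : B ⊆ A) (hB : κ / 2 * (A.card : ℝ) ≤ B.card)
    (hS : ∑ p ∈ A, DD h p M ≤ δ * κ / 8 * A.card * (M : ℝ) ^ 3) (hκ : 0 < κ) :
    κ / 4 * (A.card : ℝ) ≤ ((B.filter (fun p => DD h p M ≤ δ * (M : ℝ) ^ 3)).card : ℝ) := by
  have hM0 : (0 : ℝ) < M := by exact_mod_cast hM
  have h1 := Finset.card_filter_add_card_filter_not (s := B) (fun p => DD h p M ≤ δ * (M : ℝ) ^ 3)
  have h1' : ((B.filter (fun p => DD h p M ≤ δ * (M : ℝ) ^ 3)).card : ℝ) +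
      ((B.filter (fun p => ¬ DD h p M ≤ δ * (M : ℝ) ^ 3)).card : ℝ) = B.card := by
    exact_mod_cast h1
  have h2 : ((B.filter (fun p => ¬ DD h p M ≤ δ * (M : ℝ) ^ 3)).card : ℝ) * (δ * (M : ℝ) ^ 3) ≤
      δ * κ / 8 * A.card * (M : ℝ) ^ 3 := by
    refine le_trans ?_ hS
    refine le_trans ?_ (Finset.sum_le_sum_of_subset_of_nonneg
      ((Finset.filter_subset (fun p => ¬ DD h p M ≤ δ * (M : ℝ) ^ 3) B).trans hBA)
      (fun p _ _ => DD_nonneg h p M))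
    rw [← nsmul_eq_mul]
    refine Finset.card_nsmul_le_sum _ _ _ ?_
    intro p hp
    rw [Finset.mem_filter, not_le] at hp
    exact hp.2.le
  have h3 : ((B.filter (fun p => ¬ DD h p M ≤ δ * (M : ℝ) ^ 3)).card : ℝ) ≤ κ / 8 * A.card := by
    have h4 : (0 : ℝ) < δ * (M : ℝ) ^ 3 := by positivity
    refine le_of_mul_le_mul_right (h2.trans (le_of_eq ?_)) h4
    ring
  have hA0 : (0 : ℝ) ≤ A.card := Nat.cast_nonneg _
  nlinarith [mul_nonneg hκ.le hA0]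

/-- the lower bound at a good prime -/
private theorem lower (hLB : StatementLB) {l : ℕ} (h : Fin l → ℕ) (ε κ : ℝ) (hε : 0 < ε)
    (hκ : κ = ε / 16) (p P L Q M N m : ℕ) (ϑ : ℝ) (hp : p.Prime) (hpQ : p ∣ Q) (hQ : 0 < Q)
    (hp1 : P < p) (hp2 : p ≤ P + L) (hP : 2 ^ m ≤ P) (hL : (L : ℝ) ≤ 3 / 2 * (κ * 2 ^ m))
    (hL1 : L ≤ P) (hN2 : 2 ≤ N) (hN8 : 8 ≤ ε * N) (hMN : M / P = N)
    (hD : DD h p M ≤ ε ^ 4 / 3072 * (M : ℝ) ^ 3) (hS : ε * N < ‖Sg h N ϑ‖) :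
    ε ^ 2 / 32 * (M : ℝ) ^ 2 ≤ Q * (RC h p Q M ϑ).re := by
  have hP0 : 0 < P := lt_of_lt_of_le (by positivity) hP
  have hM1 : P * N ≤ M := by
    rw [← hMN, mul_comm]
    exact Nat.div_mul_le_self M P
  have hM2 : M < P * N + P := by
    have := Nat.lt_div_mul_add (a := M) hP0
    rw [hMN] at this
    linarith [mul_comm P N]
  have hpM : p ≤ M := by nlinarith
  have hMp : M / p ≤ N := by
    rw [← hMN]
    exact Nat.div_le_div_left hp1.le hP0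
  have rP0 : (0 : ℝ) < P := by exact_mod_cast hP0
  have rM1 : (P : ℝ) * N ≤ M := by exact_mod_cast hM1
  have rM2 : (M : ℝ) ≤ P * N + P := by exact_mod_cast hM2.le
  have rN2 : (2 : ℝ) ≤ N := by exact_mod_cast hN2
  have rp1 : (P : ℝ) ≤ p := by exact_mod_cast hp1.le
  have rp2 : (p : ℝ) ≤ P + L := by exact_mod_cast hp2
  have rp0 : (0 : ℝ) < p := lt_of_lt_of_le rP0 rp1
  have rP : (2 : ℝ) ^ m ≤ P := by exact_mod_cast hP
  have rL : (L : ℝ) ≤ 3 / 2 * κ * P := by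
    refine hL.trans ?_
    have hκ0 : 0 ≤ κ := by rw [hκ]; positivity
    nlinarith [mul_le_mul_of_nonneg_left rP hκ0]
  -- the quotient
  have h1 : (N : ℝ) - (M / p : ℕ) ≤ ε / 4 * N := by
    have e1 : (M : ℝ) < ((M / p : ℕ) + 1) * p := by
      have := Nat.lt_div_mul_add (a := M) hp.pos
      have h' : M < (M / p + 1) * p := by linarith [Nat.succ_mul (M / p) p]
      exact_mod_cast h'
    have hxN0 : ((M / p : ℕ) : ℝ) ≤ (N : ℝ) := Nat.cast_le.2 hMp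
    set x : ℝ := ((M / p : ℕ) : ℝ) with hx
    have hx0 : 0 ≤ x := Nat.cast_nonneg _
    have hxN : x ≤ N := hxN0
    -- P N <= (x + 1) (P + L)
    have e2 : (P : ℝ) * N ≤ (x + 1) * (P + L) :=
      (rM1.trans e1.le).trans (mul_le_mul_of_nonneg_left rp2 (by positivity))
    have hκ0 : 0 ≤ κ := by rw [hκ]; positivity
    have e3 : (x + 1) * L ≤ (N + 1) * (3 / 2 * κ * P) :=
      mul_le_mul (by linarith) rL (Nat.cast_nonneg _) (by positivity)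
    have e4 : (P : ℝ) * ((N : ℝ) - x) ≤ P * (1 + (N + 1) * (3 / 2 * κ)) := by nlinarith
    have e5 : (N : ℝ) - x ≤ 1 + (N + 1) * (3 / 2 * κ) := le_of_mul_le_mul_left e4 rP0
    rw [hκ] at e5
    nlinarith
  have h2 := Sg_sub h N (M / p) hMp ϑ
  have h3 : ε / 2 * N ≤ ‖Sg h (M / p) ϑ‖ := by
    have : 0 ≤ ε * N := by positivity
    nlinarith
  have h4 := hLB l h p Q M ϑ hp hpQ hQ hpM
  -- the square
  have h5 : ε ^ 2 / 16 * (M : ℝ) ^ 2 ≤ (p : ℝ) ^ 2 * ‖Sg h (M / p) ϑ‖ ^ 2 := by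
    have e1 : (M : ℝ) / 2 ≤ P * N := by nlinarith
    have e2 : (M : ℝ) / 2 ≤ p * N :=
      e1.trans (mul_le_mul_of_nonneg_right rp1 (Nat.cast_nonneg _))
    have e3 : ε / 4 * M ≤ p * ‖Sg h (M / p) ϑ‖ := by
      calc ε / 4 * M = ε / 2 * (M / 2) := by ring
        _ ≤ ε / 2 * (p * N) := mul_le_mul_of_nonneg_left e2 (by positivity)
        _ = p * (ε / 2 * N) := by ring
        _ ≤ p * ‖Sg h (M / p) ϑ‖ := mul_le_mul_of_nonneg_left h3 rp0.le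
    have e4 := pow_le_pow_left₀ (by positivity) e3 2
    calc ε ^ 2 / 16 * (M : ℝ) ^ 2 = (ε / 4 * M) ^ 2 := by ring
      _ ≤ (p * ‖Sg h (M / p) ϑ‖) ^ 2 := e4
      _ = _ := by ring
  have h6 : Real.sqrt (3 * M * DD h p M) ≤ ε ^ 2 / 32 * (M : ℝ) ^ 2 := by
    rw [Real.sqrt_le_iff]
    refine ⟨by positivity, ?_⟩
    calc 3 * (M : ℝ) * DD h p M ≤ 3 * M * (ε ^ 4 / 3072 * (M : ℝ) ^ 3) :=
          mul_le_mul_of_nonneg_left hD (by positivity)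
      _ = (ε ^ 2 / 32 * (M : ℝ) ^ 2) ^ 2 := by ring
  nlinarith

theorem pf_SS (hPG : StatementPG) (hLB : StatementLB) (hCM : StatementCM) : StatementSS := by
  intro l h ε c₀ hε hε1 hc₀
  obtain ⟨k, hk⟩ : ∃ k, 2 ^ (l + 1) = k + 2 := by
    refine ⟨2 ^ (l + 1) - 2, ?_⟩
    have : 2 ≤ 2 ^ (l + 1) := by
      calc 2 = 2 ^ 1 := by norm_num
        _ ≤ 2 ^ (l + 1) := Nat.pow_le_pow_right (by norm_num) (by omega)
    omega
  set κ : ℝ := ε / 16 with hκ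
  have hκ0 : 0 < κ := by positivity
  have hκ1 : κ ≤ 1 / 16 := by rw [hκ]; linarith
  set δ : ℝ := ε ^ 4 / 3072 with hδ
  have hδ0 : 0 < δ := by positivity
  set c : ℝ := ε ^ 2 / 32 with hc
  have hc0 : 0 < c := by positivity
  set n3 : ℝ := 3 * ((l : ℝ) + 1) with hn3
  have hn30 : 0 < n3 := by positivity
  obtain ⟨m₀, hm₀⟩ := scales (k + 1) (6 ^ (k + 2) * (16 / c₀) ^ (k + 1) * (n3 / κ)) κ
    (c ^ (k + 2) / 2) hκ0 (by positivity)
  refine ⟨δ * κ / 8, by positivity, m₀, ?_⟩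
  intro m hm hcard
  obtain ⟨hm1, hm2, hm3⟩ := hm₀ m hm
  have rm1 : (1 : ℝ) ≤ m := by exact_mod_cast hm1
  have hT : (0 : ℝ) < 2 ^ m := by positivity
  obtain ⟨P, L, hL0, hP1, hP2, hL1, hL2, hA0⟩ := block hPG κ hκ0 hκ1 m hm2
  have hP0 : 0 < P := lt_of_lt_of_le (by positivity) hP1
  have rP : (2 : ℝ) ^ m ≤ P := by exact_mod_cast hP1
  have hLP : L ≤ P := by
    have : (L : ℝ) ≤ P := by
      refine hL2.trans (le_trans ?_ rP)
      nlinarith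
    exact_mod_cast this
  refine ⟨P, hP0, hP2, ?_⟩
  set Q : ℕ := ∏ p ∈ Pset 1 m, p with hQ
  have hpr : ∀ p ∈ Pset 1 m, p.Prime := by
    intro p hp
    unfold Pset at hp
    exact (Finset.mem_filter.1 hp).2.1
  have hQ0 : 0 < Q := Finset.prod_pos fun p hp => (hpr p hp).pos
  set Y : ℝ := 16 * m / c₀ with hY
  have hY0 : 0 < Y := by positivity
  set τ : ℝ := c ^ (k + 2) / (4 * (6 ^ (k + 2) * Y ^ (k + 1))) with hτ
  have hτ0 : 0 < τ := by positivity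
  have hK : ∀ B : Finset ℕ, ∃ K : ℕ, ((∀ p ∈ B, 0 < p) ∧
      (∀ p ∈ B, ∀ q ∈ B, |(p : ℤ) - q| ≤ (L : ℤ))) → ∀ M : ℕ, K ≤ M → ∀ θ : ℝ, Minor K M θ →
      (∀ p ∈ B, c * (M : ℝ) ^ 2 ≤ Q * (RC h p Q M θ).re) →
      (c * B.card) ^ (2 ^ (l + 1)) ≤
        6 ^ (2 ^ (l + 1)) * B.card * (2 * L + 1) ^ (2 ^ (l + 1) - 2) *
          (3 * (l + 1) + τ * (2 * L + 1)) := by
    intro B
    by_cases hB : (∀ p ∈ B, 0 < p) ∧ (∀ p ∈ B, ∀ q ∈ B, |(p : ℤ) - q| ≤ (L : ℤ))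
    · obtain ⟨K, hK⟩ := hCM l h c τ B L Q hc0 hτ0 hQ0 hB.1 hB.2
      exact ⟨K, fun _ => hK⟩
    · exact ⟨0, fun hB' => absurd hB' hB⟩
  choose KB hKB using hK
  refine ⟨(Pset 1 m).powerset.sup KB + ⌈8 / ε⌉₊ + 2, ?_⟩
  intro M N hKN hMN hS ϑ hmin
  by_contra hlt
  rw [not_le] at hlt
  have hN2 : 2 ≤ N := by omega
  have hN8 : 8 ≤ ε * N := by
    have e1 : ⌈8 / ε⌉₊ ≤ N := by omega
    have e2 : 8 / ε ≤ N := (Nat.le_ceil _).trans (by exact_mod_cast e1)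
    rw [div_le_iff₀ hε] at e2
    linarith
  have hNM : N ≤ M := by
    rw [← hMN]
    exact Nat.div_le_self M P
  set B : Finset ℕ := ((Pset 1 m).filter (fun p => P < p ∧ p ≤ P + L)).filter
    (fun p => DD h p M ≤ δ * (M : ℝ) ^ 3) with hB
  have hBs : B ⊆ Pset 1 m := (Finset.filter_subset _ _).trans (Finset.filter_subset _ _)
  have hBc : κ / 4 * ((Pset 1 m).card : ℝ) ≤ (B.card : ℝ) :=
    good h (Pset 1 m) _ M (by omega) κ δ hδ0 (Finset.filter_subset _ _) hA0 hS hκ0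
  have hmem : ∀ p ∈ B, P < p ∧ p ≤ P + L ∧ DD h p M ≤ δ * (M : ℝ) ^ 3 := by
    intro p hp
    rw [hB, Finset.mem_filter, Finset.mem_filter] at hp
    exact ⟨hp.1.2.1, hp.1.2.2, hp.2⟩
  have hKBle : KB B ≤ (Pset 1 m).powerset.sup KB :=
    Finset.le_sup (f := KB) (Finset.mem_powerset.2 hBs)
  have hcm := hKB B ⟨fun p hp => (hpr p (hBs hp)).pos, fun p hp q hq => by
      have h1 := hmem p hp
      have h2 := hmem q hq
      rw [abs_le]
      omega⟩ M (by omega) ϑ (minor_mono hmin (by omega) hNM) (fun p hp => by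
      obtain ⟨h1, h2, h3⟩ := hmem p hp
      exact lower hLB h ε κ hε hκ p P L Q M N m ϑ (hpr p (hBs hp))
        (Finset.dvd_prod_of_mem _ (hBs hp)) hQ0 h1 h2 hP1 hL2 hLP hN2 hN8 hMN h3 hlt)
  rw [hk, Nat.add_sub_cancel] at hcm
  have hcard' : κ * c₀ / 4 * (2 ^ m / m) ≤ (B.card : ℝ) := by
    refine le_trans ?_ hBc
    calc κ * c₀ / 4 * (2 ^ m / m) = κ / 4 * (c₀ * 2 ^ m / m) := by ring
      _ ≤ κ / 4 * ((Pset 1 m).card : ℝ) := mul_le_mul_of_nonneg_left hcard (by positivity)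
  have hB0 : (0 : ℝ) < B.card := lt_of_lt_of_le (by positivity) hcard'
  have hfin := arith k c B.card (2 * L + 1) τ n3 Y (κ * 2 ^ m) hB0 (by positivity)
    (by linarith [Nat.cast_nonneg (α := ℝ) L]) (by
      have e1 : 2 * (L : ℝ) + 1 ≤ 4 * (κ * 2 ^ m) := by linarith
      refine e1.trans ?_
      calc 4 * (κ * 2 ^ m) = Y * (κ * c₀ / 4 * (2 ^ m / m)) := by
            rw [hY]
            field_simp
            norm_num
        _ ≤ Y * (B.card : ℝ) := mul_le_mul_of_nonneg_left hcard' hY0.le) hn30.le hτ0.le hcm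
  have e1 : 6 ^ (k + 2) * Y ^ (k + 1) * τ = c ^ (k + 2) / 4 := by
    rw [hτ]
    field_simp
  have e2 : 6 ^ (k + 2) * Y ^ (k + 1) * (n3 / (κ * 2 ^ m)) =
      6 ^ (k + 2) * (16 / c₀) ^ (k + 1) * (n3 / κ) * ((m : ℝ) ^ (k + 1) / 2 ^ m) := by
    rw [hY]
    have : (16 * (m : ℝ) / c₀) = 16 / c₀ * m := by ring
    rw [this, mul_pow]
    field_simp
  have hcp : 0 < c ^ (k + 2) := by positivity
  rw [mul_add, e1, e2] at hfin
  linarith

end Pool.Agent.H6.DP
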